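import Pool.Agent.TH958.TA.Low
import Pool.Agent.TH958.T8.Fin

/-!
Rank and order of vanishing for `y ^ 2 = x ((x - 1) ^ 2 - h ^ D)` and its twist by `h`, `D` a divisor
of `p ^ ν + 1`, over function fields.
-/

set_option autoImplicit false
set_option linter.all false
set_option maxHeartbeats 4000000

open WeierstrassCurve WeierstrassCurve.Affine Polynomial FF
open scoped Classical

namespace Pool.Agent.TH958.TA

open Pool.Agent.W343.BSD Pool.Agent.W309.RK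
open Pool.Agent.TH958.T4 (six_ne ord_one_sub' ne_of_pos)
open Pool.Agent.TH958.T5 (crvT ee aT bT aa bb short_T disc_T root_T delta_ne aa_zero)

section

variable {k K : Type} [Field k] [Finite k] [Field K] [Algebra k K]

/-- the `j`-invariant is not constant -/
theorem j_ne (h6 : (6 : k) ≠ 0) {δ m : ℕ} (hm : 0 < m) {h : K} (v : FF.Place k K)
    (hv : 0 < v.ord h) (hΔ : 4 * aT δ m h ^ 3 + 27 * bT δ m h ^ 2 ≠ 0) (c : k) :
    6912 * aT δ m h ^ 3 ≠ algebraMap k K c * (4 * aT δ m h ^ 3 + 27 * bT δ m h ^ 2) := by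
  have h2 : (2 : k) ≠ 0 := fun e => h6 (by linear_combination 3 * e)
  have h3 : (3 : k) ≠ 0 := fun e => h6 (by linear_combination 2 * e)
  have h2K : (2 : K) ≠ 0 := by
    have : algebraMap k K 2 ≠ 0 := by simpa using h2
    rwa [map_ofNat] at this
  have h3K : (3 : K) ≠ 0 := by
    have : algebraMap k K 3 ≠ 0 := by simpa using h3
    rwa [map_ofNat] at this
  have h4k : (4 : k) ≠ 0 := by
    have : (4 : k) = 2 ^ 2 := by norm_num
    rw [this]
    exact pow_ne_zero 2 h2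
  have n6912 : (6912 : k) ≠ 0 := by
    have : (6912 : k) = 2 ^ 8 * 3 ^ 3 := by norm_num
    rw [this]
    exact mul_ne_zero (pow_ne_zero _ h2) (pow_ne_zero _ h3)
  have h6912 : (6912 : K) ≠ 0 := by
    have : (6912 : K) = 2 ^ 8 * 3 ^ 3 := by norm_num
    rw [this]
    exact mul_ne_zero (pow_ne_zero _ h2K) (pow_ne_zero _ h3K)
  have hh0 : h ≠ 0 := ne_of_pos v hv.ne'
  have hs : 0 < v.ord (h ^ m) := by
    rw [v.ord_pow]
    exact mul_pos (by exact_mod_cast hm) hv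
  obtain ⟨a1, a2⟩ := aa_zero v h3 hs
  obtain ⟨b1, b2⟩ := ord_one_sub' v hs
  have hd0 : (h ^ δ) ≠ 0 := pow_ne_zero _ hh0
  have ha : aT δ m h ≠ 0 ∧ v.ord (aT δ m h) = 2 * (δ * v.ord h) := by
    unfold aT
    refine ⟨mul_ne_zero (pow_ne_zero _ hd0) a1, ?_⟩
    rw [v.ord_mul (pow_ne_zero _ hd0) a1, a2, v.ord_pow, v.ord_pow]
    push_cast
    ring
  have e2 : v.ord (6912 * aT δ m h ^ 3) = 6 * (δ * v.ord h) := by
    have g : (6912 : K) = algebraMap k K 6912 := by rw [map_ofNat]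
    rw [v.ord_mul h6912 (pow_ne_zero 3 ha.1), v.ord_pow, ha.2, g, v.ord_const n6912]
    push_cast
    ring
  intro he
  by_cases hc : c = 0
  · rw [hc, map_zero, zero_mul] at he
    exact mul_ne_zero h6912 (pow_ne_zero 3 ha.1) he
  · have hcK : algebraMap k K c ≠ 0 := (_root_.map_ne_zero _).2 hc
    have g4 : (4 : K) = algebraMap k K 4 := by rw [map_ofNat]
    have h4K : (4 : K) ≠ 0 := by rw [g4]; exact (_root_.map_ne_zero _).2 h4k
    have f1 := pow_ne_zero 6 hd0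
    have f2 := pow_ne_zero m hh0
    have f3 := pow_ne_zero 2 b1
    have g5 : v.ord (4 : K) = 0 := by rw [g4]; exact v.ord_const h4k
    rw [he, v.ord_mul hcK hΔ, v.ord_const hc, disc_T h3K, v.ord_neg,
      v.ord_mul h4K (mul_ne_zero f1 (mul_ne_zero f2 f3)), v.ord_mul f1 (mul_ne_zero f2 f3),
      v.ord_mul f2 f3, g5, v.ord_pow (h ^ δ), v.ord_pow (1 - h ^ m), b2] at e2
    rw [v.ord_pow h δ] at e2
    push_cast at e2
    linarith

variable [FF.IsFF k K]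

theorem main_odd {p ν m δ : ℕ} (hp : p.Prime) (hp5 : 5 ≤ p) (hQ4 : p ^ ν % 4 = 1) (hν : 1 ≤ ν)
    (hm : m ∣ (p ^ ν + 1) / 2) (hδ : δ ≤ 1) {n : ℕ} (hcard : Nat.card k = p ^ (2 * ν * n))
    (hk : ∀ x : K, IsAlgebraic k x → x ∈ (algebraMap k K).range)
    (hcl : Odd (S.classNumber k K)) {h : K} (hA : T5.Adm k m h) :
    (∀ c : k, 6912 * aT δ m h ^ 3 ≠
      algebraMap k K c * (4 * aT δ m h ^ 3 + 27 * bT δ m h ^ 2)) ∧
    T5.RankOrder k (m - 1 + δ) (aT δ m h) (bT δ m h) := by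
  have hpF : Fact p.Prime := ⟨hp⟩
  have hch : CharP k p := charP_of_card hp hcard
  obtain ⟨⟨i, hi⟩, ω, hω⟩ := exists_prim_and_i (p := p) (by omega) hcard
  have h6 : (6 : k) ≠ 0 := six_ne hp hp5
  obtain ⟨l, hl⟩ : ∃ l, p ^ ν = 4 * l + 1 := ⟨p ^ ν / 4, by omega⟩
  have hm2 : (p ^ ν + 1) / 2 = 2 * l + 1 := by omega
  rw [hm2] at hm
  obtain ⟨e', he'⟩ := hm
  have hmo : Odd m := by
    have h1 : Odd (m * e') := by rw [← he']; exact odd_two_mul_add_one l
    exact (Nat.odd_mul.1 h1).1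
  have hed : p ^ ν + 1 = m * (2 * e') := by
    have : m * (2 * e') = 2 * (m * e') := by ring
    rw [this, ← he']
    omega
  have hμ : IsPrimitiveRoot (ω ^ (2 * e')) m := hω.pow (by omega) (by rw [hed, mul_comm])
  obtain ⟨h2, h3, hh, hhc, hsq, hΔ⟩ := T5.facts h6 hmo hA
  have hht : Transcendental k h := by
    intro hal
    obtain ⟨c, hc⟩ := hk h hal
    exact hhc c hc.symm
  have hlow := lower (δ := δ) h6 hν hl hed (by
    rcases Nat.le_one_iff_eq_zero_or_eq_one.1 hδ with h | h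
    · exact Or.inl h
    · exact Or.inr ⟨h, hmo⟩) hi hω hht
  have hc : constDeg k K = 1 := T4.constDeg_eq_one hk
  have hup : ∀ M : ℕ, S.VanishesTo k (aT δ m h) (bT δ m h) M → M ≤ m - 1 + δ := by
    intro M hM
    have := T5.upper h6 hc hcl hmo.pos hμ hA hδ M hM
    have := hmo.pos
    omega
  obtain ⟨v0, hv0, -⟩ := hA.zero
  exact ⟨j_ne h6 hmo.pos v0 hv0 (hΔ δ), hΔ δ, T5.two_tors h2 h3 hh hsq (hΔ δ), hlow, hup,
    T5.equalities hlow hup⟩

theorem main_even {p ν m : ℕ} (hp : p.Prime) (hp5 : 5 ≤ p) (hQ4 : p ^ ν % 4 = 1) (hν : 1 ≤ ν)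
    (hm : m ∣ (p ^ ν + 1) / 2) {n : ℕ} (hcard : Nat.card k = p ^ (2 * ν * n))
    (hk : ∀ x : K, IsAlgebraic k x → x ∈ (algebraMap k K).range)
    (hcl : Odd (S.classNumber k K)) {h : K} (hA : T4.Admissible k (2 * m - 1) h) :
    T8.RankOrder k (2 * m - 1) (aT 0 (2 * m) h) (bT 0 (2 * m) h) := by
  have hpF : Fact p.Prime := ⟨hp⟩
  have hch : CharP k p := charP_of_card hp hcard
  obtain ⟨⟨i, hi⟩, ω, hω⟩ := exists_prim_and_i (p := p) (by omega) hcard
  have h6 : (6 : k) ≠ 0 := six_ne hp hp5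
  obtain ⟨l, hl⟩ : ∃ l, p ^ ν = 4 * l + 1 := ⟨p ^ ν / 4, by omega⟩
  have hm2 : (p ^ ν + 1) / 2 = 2 * l + 1 := by omega
  rw [hm2] at hm
  obtain ⟨e', he'⟩ := hm
  have hmo : Odd m := by
    have h1 : Odd (m * e') := by rw [← he']; exact odd_two_mul_add_one l
    exact (Nat.odd_mul.1 h1).1
  have hed : p ^ ν + 1 = (2 * m) * e' := by
    have : (2 * m) * e' = 2 * (m * e') := by ring
    rw [this, ← he']
    omega
  have hμ : IsPrimitiveRoot (ω ^ e') (2 * m) := hω.pow (by omega) (by rw [hed, mul_comm])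
  obtain ⟨r, hr⟩ := hmo
  have e4 : 2 * m = 4 * r + 2 := by omega
  have e5 : 2 * m - 1 = 4 * r + 1 := by omega
  have h2 : (2 : k) ≠ 0 := fun e => h6 (by linear_combination 3 * e)
  have h3 : (3 : k) ≠ 0 := fun e => h6 (by linear_combination 2 * e)
  have h2K : (2 : K) ≠ 0 := by
    have : algebraMap k K 2 ≠ 0 := by simpa using h2
    rwa [map_ofNat] at this
  have h3K : (3 : K) ≠ 0 := by
    have : algebraMap k K 3 ≠ 0 := by simpa using h3
    rwa [map_ofNat] at this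
  have h27 : (27 : K) ≠ 0 := by
    have : (27 : K) = 3 ^ 3 := by norm_num
    rw [this]
    exact pow_ne_zero 3 h3K
  obtain ⟨vi, hvi, -⟩ := hA.pole
  have hhc : ∀ c : k, h ≠ algebraMap k K c := by
    intro c e
    rw [e] at hvi
    by_cases hc : c = 0
    · rw [hc, map_zero, vi.ord_zero] at hvi
      exact lt_irrefl _ hvi
    · rw [vi.ord_const hc] at hvi
      exact lt_irrefl _ hvi
  have hht : Transcendental k h := by
    intro hal
    obtain ⟨c, hc⟩ := hk h hal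
    exact hhc c hc.symm
  have ha : aT 0 (2 * m) h = aOf (1 + h ^ m) (1 - h ^ m) := by
    unfold aT aa aOf
    rw [mul_comm 2 m, pow_mul]
    field_simp
    ring
  have hb : bT 0 (2 * m) h = bOf (1 + h ^ m) (1 - h ^ m) := by
    unfold bT bb bOf
    rw [mul_comm 2 m, pow_mul]
    field_simp
    ring
  have hΔ : 4 * aT 0 (2 * m) h ^ 3 + 27 * bT 0 (2 * m) h ^ 2 ≠ 0 := by
    rw [ha, hb]
    exact T4.disc_ne h6 (by omega) hA
  have hlow0 := lower (δ := 0) h6 hν hl hed (Or.inl rfl) hi hω hht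
  have hlow : ∃ P : Fin (2 * m - 1) → (W313.Gr.curve (aT 0 (2 * m) h)
      (bT 0 (2 * m) h)).toAffine.Point, LinearIndependent ℤ P := hlow0
  have hc : constDeg k K = 1 := T4.constDeg_eq_one hk
  have hup : ∀ M : ℕ, S.VanishesTo k (aT 0 (2 * m) h) (bT 0 (2 * m) h) M → M ≤ 2 * m - 1 := by
    intro M hM
    rw [ha, hb, hr] at hM
    rw [e5] at hA ⊢
    rw [e4] at hμ
    exact T4.upper h6 hc hcl hμ hA M hM
  obtain ⟨v0, hv0, -⟩ := hA.zero
  exact ⟨⟨hΔ, j_ne h6 (by omega) v0 hv0 hΔ⟩, hlow, hup, T5.equalities hlow hup⟩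

end

section rat

variable {p ν : ℕ}

theorem exist (hp : p.Prime) (hp5 : 5 ≤ p) (hν : 1 ≤ ν) :
    ∃ (k : Type) (_ : Field k) (_ : Finite k) (n : ℕ),
      Nat.card k = p ^ (2 * ν * n) ∧ IsCurveField k (RatFunc k) ∧
      Odd (S.classNumber k (RatFunc k)) ∧ ∀ N : ℕ, ∃ h : k[X], N ≤ h.natDegree ∧
        ∀ m : ℕ, m ∣ (p ^ ν + 1) / 2 → T5.Adm k m (algebraMap k[X] (RatFunc k) h) ∧
          T4.Admissible k (2 * m - 1) (algebraMap k[X] (RatFunc k) h) := by
  haveI : Fact p.Prime := ⟨hp⟩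
  obtain ⟨k, i1, i2, -, n, hcard, hh⟩ := exists_family p ν hν
  have hodd : Odd (p ^ ν) := (hp.odd_of_ne_two (by omega)).pow
  obtain ⟨j, hj⟩ := hodd
  refine ⟨k, i1, i2, n, hcard, T4.isCurveField_rat, (sb k).2.2, fun N => ?_⟩
  obtain ⟨h, hN, hodd, hirr, hz⟩ := hh N
  refine ⟨h, hN, fun m hm => ?_⟩
  have hA1 := T5.adm_of (Q := p ^ ν) (m := (p ^ ν + 1) / 2) (by omega) hirr hodd hz
  have hA2 := T4.admissible_of hirr hodd hz
  obtain ⟨e, he⟩ := hm
  refine ⟨⟨hA1.zero, fun z hzm => hA1.shift z (by rw [he, pow_mul, hzm, one_pow]), hA1.pole⟩,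
    ⟨hA2.zero, fun z hzm => hA2.shift z ?_, hA2.pole⟩⟩
  have hpos : 0 < p ^ ν := pow_pos hp.pos ν
  have hm0 : 0 < m := Nat.pos_of_ne_zero (by
    rintro rfl
    rw [zero_mul] at he
    omega)
  have e1 : 2 * m - 1 + 1 = 2 * m := by omega
  have e2 : p ^ ν + 1 = (2 * m) * e := by
    have : (2 * m) * e = 2 * (m * e) := by ring
    rw [this, ← he]
    omega
  rw [e1] at hzm
  rw [e2, pow_mul, hzm, one_pow]

end rat

end Pool.Agent.TH958.TA
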