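import Pool.Agent.TH958.TA.Pts

/-!
Independent points on `y ^ 2 = x ((x - 1) ^ 2 - t ^ D)` and its twist over `k(t)`, and on the
pullbacks.
-/

set_option autoImplicit false
set_option linter.all false
set_option maxHeartbeats 4000000

open Polynomial WeierstrassCurve WeierstrassCurve.Affine
open scoped Classical

namespace Pool.Agent.TH958.TA

open Pool.Agent.W309.RK
open Pool.Agent.TH958.T5 (crvT ee aT bT aa bb short_T disc_T root_T delta_ne)
open Pool.Agent.TH958.T8 (IsOrd hasRoot_base card_two_of_eq)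
open Pool.Agent.TH958.T9 (A A_inj A_C phi phi_A splits irr isOrd_at ordAt_const ord_val)
open Pool.Agent.TH115.GD (Pt act incl act_inj)

theorem card_two_of_eq' {F : Type} [Field F] {W W' : WeierstrassCurve F} (h : W' = W)
    (h4 : Set.Finite {P : W.toAffine.Point | P + P = 0} ∧
      Set.ncard {P : W.toAffine.Point | P + P = 0} ≤ 2) :
    Set.Finite {P : W'.toAffine.Point | P + P = 0} ∧
      Set.ncard {P : W'.toAffine.Point | P + P = 0} ≤ 2 := by
  subst h
  exact h4

/-- Functionals and one correcting point give a surjective map. -/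
theorem surj_option {G ι : Type} [AddCommGroup G] [Fintype ι] [DecidableEq ι] (φ : G →+ (Option ι → ZMod 2))
    (R : ι → G) (T0 : G) (v1 : ∀ z w : ι, φ (R z) (some w) = if w = z then 1 else 0)
    (v2 : φ T0 none = 1) (v3 : ∀ w : ι, φ T0 (some w) = 0) : Function.Surjective φ := by
  refine surjective_of_single φ (fun o => match o with
      | none => T0
      | some z => R z + (φ (R z) none).val • T0) ?_
  intro a b
  rcases a with _ | z
  · rcases b with _ | w
    · rw [if_pos rfl]
      exact v2
    · rw [if_neg (by simp)]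
      exact v3 w
  · have e9 : φ (R z + (φ (R z) none).val • T0) = φ (R z) + (φ (R z) none).val • φ T0 := by
      rw [map_add, map_nsmul]
    show φ (R z + (φ (R z) none).val • T0) b = _
    rcases b with _ | w
    · rw [if_neg (by simp), e9, Pi.add_apply, Pi.smul_apply, v2, nsmul_one, ZMod.natCast_val,
        ZMod.cast_id]
      exact CharTwo.add_self_eq_zero _
    · rw [e9, Pi.add_apply, Pi.smul_apply, v3, smul_zero, add_zero, v1]
      by_cases hwz : w = z
      · rw [if_pos hwz, if_pos (by rw [hwz])]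
      · rw [if_neg hwz, if_neg (fun hc => hwz (Option.some.inj hc))]

section rat

variable {k : Type} [Field k]

theorem lower_rat (h6 : (6 : k) ≠ 0) {p : ℕ} [Fact p.Prime] [CharP k p] {ν l e D δ : ℕ}
    (hν : 1 ≤ ν) (hQ : p ^ ν = 4 * l + 1) (hed : p ^ ν + 1 = D * e)
    (hδ : δ = 0 ∨ (δ = 1 ∧ Odd D)) {i : k} (hi : i ^ 2 = -1) {ω : k}
    (hω : IsPrimitiveRoot ω (p ^ ν + 1)) :
    ∃ P : Fin (D - 1 + δ) → Pt (crvT δ D (A (X : k[X]))) (RatFunc k), LinearIndependent ℤ P := by
  have h2 : (2 : k) ≠ 0 := fun e => h6 (by linear_combination 3 * e)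
  have h3 : (3 : k) ≠ 0 := fun e => h6 (by linear_combination 2 * e)
  have h2K : (2 : RatFunc k) ≠ 0 := by
    have : algebraMap k (RatFunc k) 2 ≠ 0 := by simpa using h2
    rwa [map_ofNat] at this
  have h3K : (3 : RatFunc k) ≠ 0 := by
    have : algebraMap k (RatFunc k) 3 ≠ 0 := by simpa using h3
    rwa [map_ofNat] at this
  have hprod : 0 < D * e := by omega
  have hd : 0 < D := Nat.pos_of_mul_pos_right hprod
  have he : 0 < e := Nat.pos_of_mul_pos_left hprod
  have hε : IsPrimitiveRoot (ω ^ D) e := hω.pow (by omega) hed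
  have hδ' : IsPrimitiveRoot (ω ^ e) D := hω.pow (by omega) (by rw [hed, mul_comm])
  have hω0 : ω ≠ 0 := hω.ne_zero (by omega)
  have hpe : ¬ p ∣ e := by
    intro hd'
    have h1 : p ∣ p ^ ν + 1 := by rw [hed]; exact hd'.mul_left D
    have h3 : p ∣ 1 := (Nat.dvd_add_right (dvd_pow_self p (by omega))).1 h1
    exact (Fact.out : p.Prime).one_lt.ne' (Nat.dvd_one.1 h3)
  have hek : (e : k) ≠ 0 := by
    rw [Ne, CharP.cast_eq_zero_iff k p]
    exact hpe
  have hiK : (algebraMap k (RatFunc k) i) ^ 2 = -1 := by rw [← map_pow, hi, map_neg, map_one]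
  set T : RatFunc k := A (X : k[X]) with hT
  have hTt : Transcendental k T := by
    intro hal
    have h5 := (isAlgebraic_algebraMap_iff (R := k) (S := k[X]) (A := RatFunc k)
      (RatFunc.algebraMap_injective k)).1 hal
    exact Polynomial.transcendental_X k h5
  have hT0 : T ≠ 0 := fun h0 => hTt (by rw [h0]; exact isAlgebraic_zero)
  have h1T : 1 - T ^ D ≠ 0 := by
    intro h0
    apply hTt
    have h5 : IsAlgebraic k (T ^ D) := by
      rw [← sub_eq_zero.1 h0]
      exact isAlgebraic_one
    exact h5.of_pow hd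
  have hWK : (crvT δ D T).baseChange (RatFunc k) = crvT δ D T := by
    ext
    · rfl
    · rfl
    · rfl
    · rfl
    · rfl
  let ι := {z : k // z ∈ nthRootsFinset D (1 : k)}
  letI : Fintype ι := Finset.Subtype.fintype _
  have hι : ∀ z : ι, z.1 ^ D = 1 := fun z => (mem_nthRootsFinset hd 1).1 z.2
  have hcard : Fintype.card ι = D := by
    rw [Fintype.card_coe, hδ'.card_nthRootsFinset]
  -- roots
  have hch : ∀ z : ι, ∃ s : k, s ≠ 0 ∧ s ^ e = z.1 := by
    intro z
    haveI : NeZero D := ⟨hd.ne'⟩
    obtain ⟨j, -, hj⟩ := hδ'.eq_pow_of_pow_eq_one (hι z)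
    exact ⟨ω ^ j, pow_ne_zero _ hω0, by rw [← hj, ← pow_mul, ← pow_mul, mul_comm]⟩
  choose s hs0 hs using hch
  -- the points
  have hpt := fun z : ι => points h6 hν hQ hed hδ hω hTt (hι z)
  choose R hR using hpt
  let oo : ι → RatFunc k → ℤ := fun w x => ordAt (X - C (s w) : k[X]) (irr (s w)) (phi he x)
  have hoo : ∀ w, IsOrd (oo w) := by
    intro w x y hx hy
    show ordAt _ _ (phi he (x * y)) = ordAt _ _ (phi he x) + ordAt _ _ (phi he y)
    rw [map_mul]
    exact isOrd_at (s w) _ _ ((_root_.map_ne_zero _).2 hx) ((_root_.map_ne_zero _).2 hy)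
  have hoc : ∀ (w : ι) (c : k), c ≠ 0 → oo w (algebraMap k (RatFunc k) c) = 0 := by
    intro w c hc
    show ordAt _ _ (phi he (algebraMap k (RatFunc k) c)) = 0
    rw [← A_C, phi_A, expand_C]
    exact ordAt_const _ _ hc
  have hroot : HasRoot (crvT δ D T).toAffine (ee δ T) := T5.hasRoot h3K δ D T
  have hrootK : HasRoot ((crvT δ D T).baseChange (RatFunc k)).toAffine (ee δ T) :=
    hasRoot_base (L := RatFunc k) hroot
  have hval0 : ∀ z w : ι, ((oo w (del ((crvT δ D T).baseChange (RatFunc k)).toAffine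
      (ee δ T) (R z)) : ℤ) : ZMod 2) = if w = z then 1 else 0 := by
    intro z w
    have h5 := hR z (RatFunc k) (phi he) (ordAt (X - C (s w) : k[X]) (irr (s w))) (isOrd_at (s w))
      (splits he hε) (fun c hc => hoc w c hc)
    refine h5.trans ?_
    have e1 : phi he (T - algebraMap k (RatFunc k) z.1) = A (X ^ e - C z.1) := by
      have e2 : T - algebraMap k (RatFunc k) z.1 = A (X - C z.1) := by
        rw [hT, ← A_C]
        exact (map_sub (algebraMap k[X] (RatFunc k)) _ _).symm
      rw [e2, phi_A, map_sub, expand_X, expand_C]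
    rw [e1, ord_val hek (hs0 w), hs w]
    by_cases hwz : w = z
    · rw [if_pos hwz, if_pos (congrArg Subtype.val hwz)]
    · rw [if_neg hwz, if_neg (fun hc => hwz (Subtype.ext hc))]
  -- the order at zero
  let o0 : RatFunc k → ℤ := ordAt (X - C (0 : k)) (irr 0)
  have ho0 : IsOrd o0 := isOrd_at 0
  have hoT : o0 T = -1 := by
    have e7 : T = A (X - C (0 : k)) := by rw [hT, C_0, sub_zero]
    rw [e7]
    exact ordAt_self _ _
  have hoP : ∀ r : ℕ, Odd r → ((o0 (T ^ r) : ℤ) : ZMod 2) = 1 := by
    intro r hr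
    rw [ho0.pow hT0, hoT]
    obtain ⟨a, ha⟩ := hr
    rw [ha]
    push_cast
    have : (2 : ZMod 2) = 0 := by decide
    rw [this, zero_mul, zero_add]
    decide
  have hoT' : ∀ w : ι, oo w T = 0 := by
    intro w
    show ordAt _ _ (phi he T) = 0
    rw [hT, phi_A, expand_X]
    have hnd : ¬ (X - C (s w) : k[X]) ∣ X ^ e := by
      rw [dvd_iff_isRoot, IsRoot, eval_pow, eval_X]
      exact pow_ne_zero _ (hs0 w)
    exact ordAt_of_not_dvd _ _ hnd
  by_cases hde : Even D
  · -- two rational roots more
    have hδ0 : δ = 0 := by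
      rcases hδ with h | ⟨-, h⟩
      · exact h
      · exact absurd hde (Nat.not_even_iff_odd.2 h)
    subst hδ0
    obtain ⟨m, hm⟩ := hde
    have hmo : Odd m := by
      rcases Nat.even_or_odd m with ⟨a, ha⟩ | ho
      · exfalso
        have h5 : 4 * l + 1 + 1 = (a + a + (a + a)) * e := by rw [← hQ, hed, hm, ha]
        have h7 : (a + a + (a + a)) * e = 4 * (a * e) := by ring
        omega
      · exact ho
    have hDm : T ^ D = (T ^ m) ^ 2 := by rw [← pow_mul, hm]; ring_nf
    have hrm : HasRoot (crvT 0 D T).toAffine (1 / 3 + T ^ m) := by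
      refine ⟨rfl, rfl, ?_⟩
      show (1 / 3 + T ^ m) ^ 3 + 0 * (1 / 3 + T ^ m) ^ 2 + aT 0 D T * (1 / 3 + T ^ m) +
        bT 0 D T = 0
      have h5 := short_T h3K 0 D T (1 + T ^ m)
      rw [pow_zero, one_mul, one_pow, one_mul, hDm] at h5
      have h7 : (1 + T ^ m - 2 / 3) = 1 / 3 + T ^ m := by
        field_simp
        ring
      rw [h7] at h5
      linear_combination h5
    have hrmK : HasRoot ((crvT 0 D T).baseChange (RatFunc k)).toAffine (1 / 3 + T ^ m) :=
      hasRoot_base (L := RatFunc k) hrm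
    have hn : ((crvT 0 D T).baseChange (RatFunc k)).toAffine.Nonsingular (T ^ 0 * (1 - 2 / 3))
        (algebraMap k (RatFunc k) i * T ^ m) := by
      rw [hWK]
      refine nonsing h2K h3K hT0 h1T ?_
      rw [mul_pow, hiK, hDm]
      ring
    let T0 : Pt (crvT 0 D T) (RatFunc k) := Point.some _ _ hn
    have hdel0 : del ((crvT 0 D T).baseChange (RatFunc k)).toAffine (ee 0 T) T0 = 1 := by
      have e5 : T ^ 0 * (1 - 2 / 3) - ee 0 T = 1 := by
        unfold ee
        ring
      show (if T ^ 0 * (1 - 2 / 3) = ee 0 T then _ else T ^ 0 * (1 - 2 / 3) - ee 0 T) =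
        (1 : RatFunc k)
      rw [if_neg (fun h0 => by
        rw [h0, sub_self] at e5
        exact zero_ne_one e5), e5]
    have hdel1 : del ((crvT 0 D T).baseChange (RatFunc k)).toAffine (1 / 3 + T ^ m) T0 =
        -T ^ m := by
      have e5 : T ^ 0 * (1 - 2 / 3) - (1 / 3 + T ^ m) = -T ^ m := by
        field_simp
        ring
      show (if T ^ 0 * (1 - 2 / 3) = (1 / 3 + T ^ m) then _ else
        T ^ 0 * (1 - 2 / 3) - (1 / 3 + T ^ m)) = -T ^ m
      rw [if_neg (fun h0 => by
        rw [h0, sub_self] at e5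
        exact neg_ne_zero.2 (pow_ne_zero m hT0) e5.symm), e5]
    let φ : Pt (crvT 0 D T) (RatFunc k) →+ (Option ι → ZMod 2) :=
      AddMonoidHom.pi fun o => match o with
        | none => parHom hrmK o0 ho0
        | some w => parHom hrootK (oo w) (hoo w)
    have hneg : o0 (-1) = 0 := by
      have e8 : (-1 : RatFunc k) = A (C (-1)) := by rw [A_C, map_neg, map_one]
      rw [e8]
      exact ordAt_const _ _ (neg_ne_zero.2 one_ne_zero)
    have hsurj := surj_option φ R T0 hval0 (by
        show ((o0 (del ((crvT 0 D T).baseChange (RatFunc k)).toAffine (1 / 3 + T ^ m) T0) : ℤ) :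
          ZMod 2) = 1
        have e8 : -T ^ m = (-1) * T ^ m := by ring
        rw [hdel1, e8, ho0 _ _ (neg_ne_zero.2 one_ne_zero) (pow_ne_zero m hT0), hneg, zero_add]
        exact hoP m hmo) (by
        intro w
        show ((oo w (del ((crvT 0 D T).baseChange (RatFunc k)).toAffine (ee 0 T) T0) : ℤ) :
          ZMod 2) = 0
        rw [hdel0, (hoo w).one, Int.cast_zero])
    have heq : crvT 0 D T = shortW (aOf (1 + T ^ m) (1 - T ^ m)) (bOf (1 + T ^ m) (1 - T ^ m)) := by
      have ha : aT 0 D T = aOf (1 + T ^ m) (1 - T ^ m) := by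
        unfold aT aa aOf
        rw [hDm]
        field_simp
        ring
      have hb : bT 0 D T = bOf (1 + T ^ m) (1 - T ^ m) := by
        unfold bT bb bOf
        rw [hDm]
        have h27 : (27 : RatFunc k) ≠ 0 := by
          have : (27 : RatFunc k) = 3 ^ 3 := by norm_num
          rw [this]
          exact pow_ne_zero 3 h3K
        field_simp
        ring
      unfold crvT shortW
      rw [ha, hb]
    have h22 : Set.Finite {P : Pt (crvT 0 D T) (RatFunc k) | P + P = 0} ∧
        Set.ncard {P : Pt (crvT 0 D T) (RatFunc k) | P + P = 0} ≤ 4 :=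
      card_two_of_eq (hWK.trans heq) (short_card_two h2K h3K (1 + T ^ m) (1 - T ^ m))
    have hfin := exists_independent φ hsurj h22.1 h22.2
    rw [Fintype.card_option, hcard] at hfin
    exact hfin
  · have hdo : Odd D := Nat.not_even_iff_odd.1 hde
    have hsq : ∀ c : RatFunc k, c ^ 2 ≠ T ^ D := by
      intro c hc
      have hc0 : c ≠ 0 := by
        rintro rfl
        rw [zero_pow two_ne_zero] at hc
        exact pow_ne_zero D hT0 hc.symm
      have h5 := hoP D hdo
      rw [← hc, ho0.pow hc0] at h5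
      push_cast at h5
      have : (2 : ZMod 2) = 0 := by decide
      rw [this, zero_mul] at h5
      exact zero_ne_one h5
    have h22 : Set.Finite {P : Pt (crvT δ D T) (RatFunc k) | P + P = 0} ∧
        Set.ncard {P : Pt (crvT δ D T) (RatFunc k) | P + P = 0} ≤ 2 :=
      card_two_of_eq' hWK (T5.card_two h2K h3K hT0 hsq)
    rcases hδ with rfl | ⟨rfl, -⟩
    · let φ : Pt (crvT 0 D T) (RatFunc k) →+ (ι → ZMod 2) :=
        AddMonoidHom.pi fun w => parHom hrootK (oo w) (hoo w)
      have hval : ∀ z w : ι, φ (R z) w = if w = z then 1 else 0 := hval0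
      have hsurj := surjective_of_single φ R hval
      have hfin := T5.exists_independent φ hsurj h22.1 h22.2
      rw [hcard] at hfin
      exact hfin
    · have hn : ((crvT 1 D T).baseChange (RatFunc k)).toAffine.Nonsingular (T ^ 1 * (1 - 2 / 3))
          (algebraMap k (RatFunc k) i * T ^ ((D + 3) / 2)) := by
        rw [hWK]
        refine nonsing h2K h3K hT0 h1T ?_
        have e5 : (T ^ ((D + 3) / 2)) ^ 2 = T ^ (D + 3) := by
          rw [← pow_mul]
          congr 1
          obtain ⟨a, ha⟩ := hdo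
          omega
        rw [mul_pow, hiK, e5, pow_one, pow_add]
        ring
      let T0 : Pt (crvT 1 D T) (RatFunc k) := Point.some _ _ hn
      have hdel0 : del ((crvT 1 D T).baseChange (RatFunc k)).toAffine (ee 1 T) T0 = T := by
        have e5 : T ^ 1 * (1 - 2 / 3) - ee 1 T = T := by
          unfold ee
          ring
        show (if T ^ 1 * (1 - 2 / 3) = ee 1 T then _ else T ^ 1 * (1 - 2 / 3) - ee 1 T) = T
        rw [if_neg (fun h0 => by
          rw [h0, sub_self] at e5
          exact hT0 e5.symm), e5]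
      let φ : Pt (crvT 1 D T) (RatFunc k) →+ (Option ι → ZMod 2) :=
        AddMonoidHom.pi fun o => match o with
          | none => parHom hrootK o0 ho0
          | some w => parHom hrootK (oo w) (hoo w)
      have hsurj := surj_option φ R T0 hval0 (by
          show ((o0 (del ((crvT 1 D T).baseChange (RatFunc k)).toAffine (ee 1 T) T0) : ℤ) :
            ZMod 2) = 1
          rw [hdel0, hoT]
          decide) (by
          intro w
          show ((oo w (del ((crvT 1 D T).baseChange (RatFunc k)).toAffine (ee 1 T) T0) : ℤ) :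
            ZMod 2) = 0
          rw [hdel0, hoT', Int.cast_zero])
      have hfin := T5.exists_independent φ hsurj h22.1 h22.2
      rw [Fintype.card_option, hcard] at hfin
      have e9 : D + 1 - 1 = D - 1 + 1 := by omega
      rw [e9] at hfin
      exact hfin

end rat

section low

variable {k K : Type} [Field k] [Field K] [Algebra k K]

/-- The points on the pullbacks. -/
theorem lower (h6 : (6 : k) ≠ 0) {p : ℕ} [Fact p.Prime] [CharP k p] {ν l e D δ : ℕ}
    (hν : 1 ≤ ν) (hQ : p ^ ν = 4 * l + 1) (hed : p ^ ν + 1 = D * e)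
    (hδ : δ = 0 ∨ (δ = 1 ∧ Odd D)) {i : k} (hi : i ^ 2 = -1) {ω : k}
    (hω : IsPrimitiveRoot ω (p ^ ν + 1)) {h : K} (hh : Transcendental k h) :
    ∃ P : Fin (D - 1 + δ) → (crvT δ D h).toAffine.Point, LinearIndependent ℤ P := by
  obtain ⟨P, hP⟩ := lower_rat h6 hν hQ hed hδ hi hω
  have hinj : Function.Injective (aeval h : k[X] →ₐ[k] K).toRingHom :=
    transcendental_iff_injective.1 hh
  let f : RatFunc k →+* K := IsFractionRing.lift (A := k[X]) (K := RatFunc k) hinj
  have hf : f (A X) = h := by
    have := IsFractionRing.lift_algebraMap (A := k[X]) (K := RatFunc k) hinj X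
    refine this.trans ?_
    exact aeval_X h
  letI : Algebra (RatFunc k) K := f.toAlgebra
  have hfa : algebraMap (RatFunc k) K = f := rfl
  have hWK : (crvT δ D (A (X : k[X]))).baseChange K = crvT δ D h := by
    obtain ⟨hA, hB⟩ := map_curve f δ D (A X)
    rw [hf] at hA hB
    ext
    · exact map_zero _
    · exact map_zero _
    · exact map_zero _
    · exact hA
    · exact hB
  let g : Pt (crvT δ D (A (X : k[X]))) (RatFunc k) →+ Pt (crvT δ D (A (X : k[X]))) K :=
    act (crvT δ D (A (X : k[X]))) (incl (RatFunc k) (RatFunc k) K)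
  have hg : Function.Injective g := act_inj _ _
  have hind : LinearIndependent ℤ (fun j => g (P j)) :=
    hP.map' g.toIntLinearMap (LinearMap.ker_eq_bot.2 hg)
  have hfin : ∃ P : Fin (D - 1 + δ) → ((crvT δ D (A (X : k[X]))).baseChange K).toAffine.Point,
      LinearIndependent ℤ P := ⟨_, hind⟩
  exact hWK ▸ hfin

end low

end Pool.Agent.TH958.TA
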