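import Pool.Agent.TH958.T9.Low
import Pool.Agent.TH958.T5.Lb

/-!
Points on `y ^ 2 = x ((x - 1) ^ 2 - h ^ D)` and on its twist by `h`, `D` a divisor of `p ^ ν + 1`,
`p ^ ν = 4 l + 1`.
-/

set_option autoImplicit false
set_option linter.all false
set_option maxHeartbeats 4000000

open Polynomial WeierstrassCurve WeierstrassCurve.Affine
open scoped Classical

namespace Pool.Agent.TH958.TA

open Pool.Agent.W309.RK
open Pool.Agent.TH958.T5 (crvT ee aT bT aa bb short_T disc_T root_T delta_ne)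
open Pool.Agent.TH958.T7 (prod_eta sum_shift)
open Pool.Agent.TH958.T8 (IsOrd hasRoot_base del_act)
open Pool.Agent.TH958.T9 (kummer descend)
open Pool.Agent.TH115.GD (Pt act incl rs act_some fixed_point)

section one

variable {L : Type} [Field L]

/-- the identity behind the points -/
theorem idn {p : ℕ} [Fact p.Prime] [CharP L p] {ν l : ℕ} (hQ : p ^ ν = 4 * l + 1) (x : L) :
    ((x - 1) ^ (l + 1) * ((x - 1) ^ (2 * l) - 1)) ^ 2 =
      -(x - 1) ^ (2 * l + 1) * ((-(x - 1) ^ (2 * l + 1) - 1) ^ 2 - x ^ (p ^ ν + 1)) := by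
  have h1 : (x - 1) ^ (p ^ ν) = x ^ (p ^ ν) - 1 := by
    rw [sub_pow_char_pow, one_pow]
  have h2 : x ^ (p ^ ν + 1) = ((x - 1) ^ (4 * l + 1) + 1) * (x - 1 + 1) := by
    rw [pow_succ, ← hQ, h1]
    ring
  rw [h2]
  ring

theorem nonsing (h2 : (2 : L) ≠ 0) (h3 : (3 : L) ≠ 0) {δ m : ℕ} {h x Y : L} (hh : h ≠ 0)
    (h1 : 1 - h ^ m ≠ 0) (hY : Y ^ 2 = (h ^ δ) ^ 3 * (x * ((x - 1) ^ 2 - h ^ m))) :
    (crvT δ m h).toAffine.Nonsingular (h ^ δ * (x - 2 / 3)) Y := by
  have h4 : (4 : L) ≠ 0 := by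
    have : (4 : L) = 2 ^ 2 := by norm_num
    rw [this]
    exact pow_ne_zero 2 h2
  have hΔ : 4 * aT δ m h ^ 3 + 27 * bT δ m h ^ 2 ≠ 0 := by
    rw [disc_T h3]
    exact neg_ne_zero.2 (mul_ne_zero h4 (mul_ne_zero (pow_ne_zero _ (pow_ne_zero _ hh))
      (mul_ne_zero (pow_ne_zero _ hh) (pow_ne_zero _ h1))))
  refine (equation_iff_nonsingular_of_Δ_ne_zero (delta_ne h2 hΔ)).1 ?_
  rw [equation_iff]
  show Y ^ 2 + 0 * _ * Y + 0 * Y = _ ^ 3 + 0 * _ ^ 2 + aT δ m h * _ + bT δ m h
  have := short_T h3 δ m h x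
  linear_combination hY - this

theorem map_curve {K L : Type} [Field K] [Field L] (f : K →+* L) (δ m : ℕ) (h : K) :
    f (aT δ m h) = aT δ m (f h) ∧ f (bT δ m h) = bT δ m (f h) := by
  unfold aT bT aa bb
  constructor
  · simp only [map_sub, map_add, map_mul, map_pow, map_neg, map_div₀, map_ofNat, map_one]
  · simp only [map_sub, map_add, map_mul, map_pow, map_neg, map_div₀, map_ofNat, map_one]

end one

section points

variable {k K : Type} [Field k] [Field K] [Algebra k K]

/-- The points over `K`: for every `z` with `z ^ D = 1` there is a point whose image under the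
descent map given by a valuation trivial on the constants is the order of `h - z`. -/
theorem points (h6 : (6 : k) ≠ 0) {p : ℕ} [Fact p.Prime] [CharP k p] {ν l e D δ : ℕ} (hν : 1 ≤ ν)
    (hQ : p ^ ν = 4 * l + 1) (hed : p ^ ν + 1 = D * e) (hδ : δ = 0 ∨ (δ = 1 ∧ Odd D))
    {ω : k} (hω : IsPrimitiveRoot ω (p ^ ν + 1)) {h : K} (hh : Transcendental k h) {z : k}
    (hz : z ^ D = 1) :
    ∃ R : Pt (crvT δ D h) K, ∀ (M : Type) [Field M] (f : K →+* M) (ord : M → ℤ), IsOrd ord →
      ((X ^ e - C h : K[X]).map f).Splits →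
      (∀ c : k, c ≠ 0 → ord (f (algebraMap k K c)) = 0) →
      ((ord (f (del ((crvT δ D h).baseChange K).toAffine (ee δ h) R)) : ℤ) : ZMod 2) =
        ((ord (f (h - algebraMap k K z)) : ℤ) : ZMod 2) := by
  have h2 : (2 : k) ≠ 0 := fun e => h6 (by linear_combination 3 * e)
  have h3 : (3 : k) ≠ 0 := fun e => h6 (by linear_combination 2 * e)
  have hprod : 0 < D * e := by omega
  have hd : 0 < D := Nat.pos_of_mul_pos_right hprod
  have he : 0 < e := Nat.pos_of_mul_pos_left hprod
  have hε : IsPrimitiveRoot (ω ^ D) e := hω.pow (by omega) hed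
  have hδ' : IsPrimitiveRoot (ω ^ e) D := hω.pow (by omega) (by rw [hed, mul_comm])
  have hp1 : 1 < p := (Fact.out : p.Prime).one_lt
  have hl : 0 < l := by
    have : p ≤ p ^ ν := Nat.le_self_pow (by omega) p
    have hp2 : p ≠ 2 := by
      rintro rfl
      apply h2
      exact_mod_cast (CharP.cast_eq_zero k 2)
    have hp3 : p ≠ 3 := by
      rintro rfl
      apply h3
      exact_mod_cast (CharP.cast_eq_zero k 3)
    omega
  have hpe : ¬ p ∣ e := by
    intro hd'
    have h1 : p ∣ p ^ ν + 1 := by rw [hed]; exact hd'.mul_left D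
    have h3 : p ∣ 1 := (Nat.dvd_add_right (dvd_pow_self p (by omega))).1 h1
    exact hp1.ne' (Nat.dvd_one.1 h3)
  haveI : CharP K p := charP_of_injective_ringHom (algebraMap k K).injective p
  have heK : (e : K) ≠ 0 := by
    rw [Ne, CharP.cast_eq_zero_iff K p]
    exact hpe
  have hh0 : h ≠ 0 := by
    rintro rfl
    exact hh isAlgebraic_zero
  have hεK : IsPrimitiveRoot (algebraMap k K (ω ^ D)) e :=
    hε.map_of_injective (algebraMap k K).injective
  obtain ⟨L, iF, iA, g, iFD, iG, hg, hσ, hfin⟩ := kummer he heK hεK hh0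
  letI : Algebra k L := ((algebraMap K L).comp (algebraMap k K)).toAlgebra
  haveI : IsScalarTower k K L := IsScalarTower.of_algebraMap_eq' rfl
  haveI : CharP L p := charP_of_injective_ringHom (algebraMap k L).injective p
  have hkL : ∀ c : k, algebraMap k L c = algebraMap K L (algebraMap k K c) := fun c => rfl
  have h2L : (2 : L) ≠ 0 := by
    have : algebraMap k L 2 ≠ 0 := by simpa using h2
    rwa [map_ofNat] at this
  have h3L : (3 : L) ≠ 0 := by
    have : algebraMap k L 3 ≠ 0 := by simpa using h3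
    rwa [map_ofNat] at this
  have h3K : (3 : K) ≠ 0 := by
    have : algebraMap k K 3 ≠ 0 := by simpa using h3
    rwa [map_ofNat] at this
  -- `g` is transcendental
  have hgt : Transcendental k g := by
    intro hal
    apply hh
    have h5 : IsAlgebraic k (algebraMap K L h) := by rw [← hg]; exact hal.pow e
    exact (isAlgebraic_algebraMap_iff (algebraMap K L).injective).1 h5
  have hg0 : g ≠ 0 := by
    rintro rfl
    exact hgt isAlgebraic_zero
  have hzt : ∀ t : k, t ≠ 0 → Transcendental k (algebraMap k L t * g - 1) := by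
    intro t ht hal
    apply hgt
    have h5 : IsAlgebraic k (algebraMap k L t * g) := by
      have := hal.add (isAlgebraic_one (R := k) (A := L))
      rwa [sub_add_cancel] at this
    have h7 : g = algebraMap k L t⁻¹ * (algebraMap k L t * g) := by
      rw [← mul_assoc, ← map_mul, inv_mul_cancel₀ ht, map_one, one_mul]
    rw [h7]
    exact (isAlgebraic_algebraMap _).mul h5
  have hgQ : (algebraMap K L h) ^ D = g ^ (p ^ ν + 1) := by
    rw [← hg, ← pow_mul, hed, mul_comm]
  have hhL0 : algebraMap K L h ≠ 0 := (_root_.map_ne_zero _).2 hh0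
  have h1D : 1 - (algebraMap K L h) ^ D ≠ 0 := by
    intro h0
    apply hgt
    have h5 : IsAlgebraic k (g ^ (p ^ ν + 1)) := by
      rw [← hgQ, ← sub_eq_zero.1 h0]
      exact isAlgebraic_one
    exact h5.of_pow (by omega)
  have hWL : (crvT δ D h).baseChange L = crvT δ D (algebraMap K L h) := by
    obtain ⟨hA, hB⟩ := map_curve (algebraMap K L) δ D h
    ext
    · exact map_zero _
    · exact map_zero _
    · exact map_zero _
    · exact hA
    · exact hB
  have hroot : HasRoot (crvT δ D h).toAffine (ee δ h) := T5.hasRoot h3K δ D h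
  have hrootL := hasRoot_base (L := L) hroot
  -- the factor in the second coordinate
  obtain ⟨c, hcσ, hcc⟩ : ∃ c : k → L, (∀ (σ : L ≃ₐ[K] L) (η₀ : k), η₀ ^ e = 1 →
      σ g = algebraMap k L η₀ * g → ∀ s : k, σ (c s) = c (s * η₀)) ∧
      ∀ s : k, s ^ (p ^ ν + 1) = 1 → (c s) ^ 2 = ((algebraMap K L h) ^ δ) ^ 3 := by
    rcases hδ with rfl | ⟨rfl, hDo⟩
    · exact ⟨fun _ => 1, fun σ η₀ _ _ s => map_one σ, fun s _ => by
        rw [pow_zero, one_pow, one_pow]⟩
    · obtain ⟨a, ha⟩ := hDo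
      obtain ⟨e', he'⟩ : ∃ e', e = 2 * e' := by
        have h5 : Even (D * e) := by
          rw [← hed, hQ]
          exact ⟨2 * l + 1, by ring⟩
        rcases Nat.even_mul.1 h5 with h7 | h7
        · exfalso
          rw [ha] at h7
          exact (Nat.not_even_iff_odd.2 (odd_two_mul_add_one a)) h7
        · obtain ⟨r, hr⟩ := h7
          exact ⟨r, by rw [hr]; ring⟩
      have hDe : 2 * l + 1 = D * e' := by
        have h5 : 2 * (2 * l + 1) = 2 * (D * e') := by
          have : 4 * l + 1 + 1 = D * (2 * e') := by rw [← he', ← hed, hQ]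
          linarith
        omega
      refine ⟨fun s => algebraMap k L (s ^ (2 * l + 1)) * g ^ (3 * e'), ?_, ?_⟩
      · intro σ η₀ h0 hσg s
        have h9 : (η₀ ^ e') ^ 2 = 1 := by rw [← pow_mul, mul_comm, ← he', h0]
        have e1 : η₀ ^ (3 * e') = η₀ ^ e' := by
          have : 3 * e' = e' * 2 + e' := by ring
          rw [this, pow_add, pow_mul, h9, one_mul]
        have e2 : η₀ ^ (2 * l + 1) = η₀ ^ e' := by
          rw [hDe, ha]
          have : (2 * a + 1) * e' = e' * 2 * a + e' := by ring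
          rw [this, pow_add, pow_mul, pow_mul, h9, one_pow, one_mul]
        have q1 : σ (algebraMap k L (s ^ (2 * l + 1))) = algebraMap k L (s ^ (2 * l + 1)) := by
          rw [hkL, σ.commutes]
        show σ (algebraMap k L (s ^ (2 * l + 1)) * g ^ (3 * e')) =
          algebraMap k L ((s * η₀) ^ (2 * l + 1)) * g ^ (3 * e')
        rw [map_mul, q1, map_pow σ g, hσg, mul_pow, ← map_pow (algebraMap k L) η₀, e1,
          mul_pow s η₀, e2, map_mul]
        ring
      · intro s hs
        have e3 : (s ^ (2 * l + 1)) ^ 2 = 1 := by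
          rw [← pow_mul, ← hs, hQ]
          congr 1
          ring
        rw [mul_pow, ← map_pow, e3, map_one, one_mul, pow_one, ← hg, ← pow_mul, ← pow_mul, he']
        congr 1
        ring
  -- the points over `L`
  let Z : k → L := fun t => algebraMap k L t * g - 1
  have hZd : ∀ t, Z t = algebraMap k L t * g - 1 := fun t => rfl
  have hpt : ∀ t : k, ∃ P : Pt (crvT δ D h) L, t ^ (p ^ ν + 1) = 1 →
      ∃ hn : ((crvT δ D h).baseChange L).toAffine.Nonsingular
        ((algebraMap K L h) ^ δ * (-(Z t) ^ (2 * l + 1) - 2 / 3))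
        (c t * ((Z t) ^ (l + 1) * ((Z t) ^ (2 * l) - 1))),
        P = Point.some _ _ hn := by
    intro t
    by_cases ht : t ^ (p ^ ν + 1) = 1
    · have hxx : (algebraMap k L t * g) ^ (p ^ ν + 1) = (algebraMap K L h) ^ D := by
        rw [mul_pow, ← map_pow, ht, map_one, one_mul, hgQ]
      have hid := idn (p := p) (ν := ν) hQ (algebraMap k L t * g)
      rw [hxx] at hid
      have hn : ((crvT δ D h).baseChange L).toAffine.Nonsingular
          ((algebraMap K L h) ^ δ * (-(Z t) ^ (2 * l + 1) - 2 / 3))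
          (c t * ((Z t) ^ (l + 1) * ((Z t) ^ (2 * l) - 1))) := by
        rw [hWL]
        refine nonsing h2L h3L hhL0 h1D ?_
        rw [mul_pow, hcc t ht, hid]
      exact ⟨Point.some _ _ hn, fun _ => ⟨hn, rfl⟩⟩
    · exact ⟨0, fun h => absurd h ht⟩
  choose P hP using hpt
  -- the parameter
  obtain ⟨t, htz, htQ⟩ : ∃ t : k, t ^ e * z = 1 ∧ t ^ (p ^ ν + 1) = 1 := by
    haveI : NeZero D := ⟨hd.ne'⟩
    obtain ⟨j, -, hj⟩ := hδ'.eq_pow_of_pow_eq_one hz
    have hω0 : ω ≠ 0 := hω.ne_zero (by omega)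
    refine ⟨(ω ^ j)⁻¹, ?_, ?_⟩
    · rw [← hj, inv_pow, ← pow_mul, ← pow_mul, mul_comm j e]
      exact inv_mul_cancel₀ (pow_ne_zero _ hω0)
    · rw [inv_pow, ← pow_mul, mul_comm, pow_mul, hω.pow_eq_one, one_pow, inv_one]
  have ht0 : t ≠ 0 := by
    rintro rfl
    rw [zero_pow (by omega)] at htQ
    exact zero_ne_one htQ
  have htη : ∀ η ∈ nthRootsFinset e (1 : k), (t * η) ^ (p ^ ν + 1) = 1 := by
    intro η hη
    rw [mul_pow, htQ, one_mul, hed, mul_comm, pow_mul, (mem_nthRootsFinset he 1).1 hη, one_pow]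
  have hη0 : ∀ η ∈ nthRootsFinset e (1 : k), η ≠ 0 := by
    intro η hη h0
    have := (mem_nthRootsFinset he 1).1 hη
    rw [h0, zero_pow he.ne'] at this
    exact zero_ne_one this
  set R : Pt (crvT δ D h) L := ∑ η ∈ nthRootsFinset e (1 : k), P (t * η) with hR
  -- invariance
  have hinv : ∀ σ : L ≃ₐ[K] L, act (crvT δ D h) (rs K σ) R = R := by
    intro σ
    obtain ⟨η₁, hη₁, hση⟩ := hσ σ
    haveI : NeZero e := ⟨he.ne'⟩
    obtain ⟨j, -, hj⟩ := hεK.eq_pow_of_pow_eq_one hη₁
    set η₀ : k := (ω ^ D) ^ j with hη₀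
    have hη₀1 : algebraMap k K η₀ = η₁ := by rw [← hj, hη₀, map_pow]
    have hη₀e : η₀ ^ e = 1 := by
      rw [hη₀, ← pow_mul, mul_comm, pow_mul, hε.pow_eq_one, one_pow]
    have hσg : σ g = algebraMap k L η₀ * g := by rw [hση, hkL η₀, hη₀1]
    have hσc : ∀ c : k, σ (algebraMap k L c) = algebraMap k L c := fun c => by
      rw [hkL, σ.commutes]
    have hσZ : ∀ s : k, σ (Z s) = Z (s * η₀) := by
      intro s
      rw [hZd, hZd, map_sub, map_one, map_mul, hσg, hσc, map_mul]
      ring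
    have h5 : ∀ s : k, s ^ (p ^ ν + 1) = 1 → act (crvT δ D h) (rs K σ) (P s) = P (s * η₀) := by
      intro s hs
      have hs' : (s * η₀) ^ (p ^ ν + 1) = 1 := by
        rw [mul_pow, hs, one_mul, hed, mul_comm, pow_mul, hη₀e, one_pow]
      obtain ⟨hn1, hP1⟩ := hP s hs
      obtain ⟨hn2, hP2⟩ := hP _ hs'
      rw [hP1, hP2]
      obtain ⟨h7, h9⟩ := act_some (crvT δ D h) (rs K σ) hn1
      rw [h9]
      have e1 : (rs K σ) ((algebraMap K L h) ^ δ * (-(Z s) ^ (2 * l + 1) - 2 / 3)) =
          (algebraMap K L h) ^ δ * (-(Z (s * η₀)) ^ (2 * l + 1) - 2 / 3) := by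
        show σ _ = _
        rw [map_mul, map_pow, σ.commutes, map_sub, map_neg, map_pow, hσZ, map_div₀, map_ofNat,
          map_ofNat]
      have e2 : (rs K σ) (c s * ((Z s) ^ (l + 1) * ((Z s) ^ (2 * l) - 1))) =
          c (s * η₀) * ((Z (s * η₀)) ^ (l + 1) * ((Z (s * η₀)) ^ (2 * l) - 1)) := by
        show σ _ = _
        rw [map_mul, map_mul, map_sub, map_pow, map_pow, hσZ, map_one, hcσ σ η₀ hη₀e hσg]
      rw [Point.some.injEq]
      exact ⟨e1, e2⟩
    rw [hR, map_sum, ← sum_shift he P hη₀e t]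
    exact Finset.sum_congr rfl fun η hη => h5 _ (htη η hη)
  obtain ⟨R0, hR0⟩ := descend (crvT δ D h) R hinv
  refine ⟨R0, fun M _ f ord ho hspl hoc => ?_⟩
  obtain ⟨j, hj⟩ := hfin M f hspl
  have hoL : IsOrd (fun x : L => ord (j x)) := by
    intro x y hx hy
    show ord (j (x * y)) = ord (j x) + ord (j y)
    rw [map_mul, ho _ _ ((_root_.map_ne_zero j).2 hx) ((_root_.map_ne_zero j).2 hy)]
  have e0 : ord (f (del ((crvT δ D h).baseChange K).toAffine (ee δ h) R0)) =
      ord (j (del ((crvT δ D h).baseChange L).toAffine (algebraMap K L (ee δ h)) R)) := by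
    rw [← hR0, hj]
  have hZ0 : ∀ η ∈ nthRootsFinset e (1 : k), Z (t * η) ≠ 0 := fun η hη h0 =>
    hzt (t * η) (mul_ne_zero ht0 (hη0 η hη)) (by
      have h5 : algebraMap k L (t * η) * g - 1 = 0 := h0
      rw [h5]
      exact isAlgebraic_zero)
  have hneg1 : ord (j (-1)) = 0 := by
    have h5 : (-1 : L) = algebraMap K L (algebraMap k K (-1)) := by
      rw [map_neg, map_one, map_neg, map_one]
    rw [h5, hj, hoc _ (neg_ne_zero.2 one_ne_zero)]
  have heeL : algebraMap K L (ee δ h) = -(2 / 3) * (algebraMap K L h) ^ δ := by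
    unfold ee
    simp only [map_mul, map_neg, map_div₀, map_ofNat, map_pow]
  have hdel : ∀ η ∈ nthRootsFinset e (1 : k),
      ((ord (j (del ((crvT δ D h).baseChange L).toAffine
        (algebraMap K L (ee δ h)) (P (t * η)))) : ℤ) : ZMod 2) =
        (δ : ZMod 2) * ((ord (f h) : ℤ) : ZMod 2) + ((ord (j (Z (t * η))) : ℤ) : ZMod 2) := by
    intro η hη
    obtain ⟨hn, hPn⟩ := hP (t * η) (htη η hη)
    rw [hPn]
    have e1 : (algebraMap K L h) ^ δ * (-(Z (t * η)) ^ (2 * l + 1) - 2 / 3) -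
        algebraMap K L (ee δ h) = (algebraMap K L h) ^ δ * ((-1) * (Z (t * η)) ^ (2 * l + 1)) := by
      rw [heeL]
      ring
    have hne : (algebraMap K L h) ^ δ * ((-1) * (Z (t * η)) ^ (2 * l + 1)) ≠ 0 :=
      mul_ne_zero (pow_ne_zero _ hhL0) (mul_ne_zero (neg_ne_zero.2 one_ne_zero)
        (pow_ne_zero _ (hZ0 η hη)))
    have e2 : del ((crvT δ D h).baseChange L).toAffine (algebraMap K L (ee δ h))
        (Point.some _ _ hn) = (algebraMap K L h) ^ δ * ((-1) * (Z (t * η)) ^ (2 * l + 1)) := by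
      simp only [del]
      rw [if_neg (fun h1 => hne (by rw [← e1, h1, sub_self])), e1]
    rw [e2]
    have e3 := hoL _ _ (pow_ne_zero δ hhL0) (mul_ne_zero (neg_ne_zero.2 one_ne_zero)
        (pow_ne_zero (2 * l + 1) (hZ0 η hη)))
    have e4 := hoL _ _ (neg_ne_zero.2 one_ne_zero : (-1 : L) ≠ 0)
      (pow_ne_zero (2 * l + 1) (hZ0 η hη))
    have e5 := hoL.pow (hZ0 η hη) (2 * l + 1)
    have e6 := hoL.pow hhL0 δ
    simp only at e3 e4 e5 e6
    rw [e3, e4, e5, e6, hneg1, hj]
    push_cast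
    have : (2 : ZMod 2) = 0 := by decide
    rw [this]
    ring
  have hsum : ((ord (j (del ((crvT δ D h).baseChange L).toAffine
      (algebraMap K L (ee δ h)) R)) : ℤ) : ZMod 2) =
      ∑ η ∈ nthRootsFinset e (1 : k), ((ord (j (del ((crvT δ D h).baseChange L).toAffine
        (algebraMap K L (ee δ h)) (P (t * η)))) : ℤ) : ZMod 2) :=
    map_sum (parHom hrootL (fun x : L => ord (j x)) hoL) (fun η => P (t * η))
      (nthRootsFinset e (1 : k))
  have hδe : (e : ZMod 2) * (δ : ZMod 2) = 0 := by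
    rcases hδ with rfl | ⟨rfl, hDo⟩
    · rw [Nat.cast_zero, mul_zero]
    · have h5 : Even (D * e) := by
        rw [← hed, hQ]
        exact ⟨2 * l + 1, by ring⟩
      rcases Nat.even_mul.1 h5 with h7 | h7
      · exact absurd h7 (Nat.not_even_iff_odd.2 hDo)
      · have : (e : ZMod 2) = 0 := (ZMod.natCast_eq_zero_iff _ _).2 (even_iff_two_dvd.1 h7)
        rw [this, zero_mul]
  rw [e0, hsum, Finset.sum_congr rfl hdel, Finset.sum_add_distrib, Finset.sum_const,
    hε.card_nthRootsFinset, nsmul_eq_mul, ← mul_assoc, hδe, zero_mul, zero_add]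
  have e9 : ∑ η ∈ nthRootsFinset e (1 : k), ((ord (j (Z (t * η))) : ℤ) : ZMod 2) =
      ((ord (j (∏ η ∈ nthRootsFinset e (1 : k), Z (t * η))) : ℤ) : ZMod 2) := by
    have h5 := hoL.prod (nthRootsFinset e (1 : k)) (fun η => Z (t * η)) hZ0
    rw [h5, Int.cast_sum]
  rw [e9]
  obtain ⟨c', hc0, hc⟩ := prod_eta he hε (algebraMap k L t * g)
  have e5 : ∏ η ∈ nthRootsFinset e (1 : k), Z (t * η) =
      algebraMap k L c' * ((algebraMap k L t * g) ^ e - 1) := by
    rw [← hc]
    refine Finset.prod_congr rfl fun η _ => ?_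
    rw [hZd, map_mul]
    ring
  have e7 : algebraMap k L c' * ((algebraMap k L t * g) ^ e - 1) =
      algebraMap K L (algebraMap k K (c' * t ^ e) * (h - algebraMap k K z)) := by
    have h9 : algebraMap k K (t ^ e) * algebraMap k K z = 1 := by
      rw [← map_mul, htz, map_one]
    have h11 : algebraMap k K (c' * t ^ e) * (h - algebraMap k K z) =
        algebraMap k K c' * (algebraMap k K (t ^ e) * h - 1) := by
      rw [map_mul]
      linear_combination (-algebraMap k K c') * h9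
    rw [h11, mul_pow, hg, map_mul, map_sub, map_mul, map_one, hkL, ← map_pow, hkL]
  have hhz : h - algebraMap k K z ≠ 0 := by
    intro h0
    apply hh
    rw [sub_eq_zero.1 h0]
    exact isAlgebraic_algebraMap _
  have hct : c' * t ^ e ≠ 0 := mul_ne_zero hc0 (pow_ne_zero _ ht0)
  have hct' : algebraMap k K (c' * t ^ e) ≠ 0 := (_root_.map_ne_zero _).2 hct
  rw [e5, e7, hj, map_mul, ho _ _ ((_root_.map_ne_zero f).2 hct') ((_root_.map_ne_zero f).2 hhz),
    hoc _ hct, zero_add]

end points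

end Pool.Agent.TH958.TA
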